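import Pool.Agent.BAC.Poset
import Pool.Agent.BAC.Primes
import Pool.Agent.BAC.Realize

set_option autoImplicit false

namespace Pool.Agent.Results.MP_bac445_co.ExponentialLowerBound

open BAC

theorem chain_width (n : ℕ) : WidthLeTwo (Fin n) := by
  intro s hs
  have h1 : s.card ≤ 1 := by
    rw [Finset.card_le_one]
    intro a ha b hb
    by_contra hab
    rcases le_total a b with h | h
    · exact hs ha hb hab h
    · exact hs hb ha (Ne.symm hab) h
  omega

theorem chain_linExt (n : ℕ) : linExt (Fin n) = 1 := by
  unfold linExt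
  rw [Set.ncard_eq_one]
  refine ⟨fun x y => x ≤ y, ?_⟩
  ext r
  rw [Set.mem_singleton_iff]
  constructor
  · rintro ⟨hr, h⟩
    funext x y
    apply propext
    constructor
    · intro hxy
      rcases le_total x y with h1 | h1
      · exact h1
      · have h2 := h y x h1
        have h3 : x = y := hr.toIsPartialOrder.toAntisymm.antisymm x y hxy h2
        exact le_of_eq h3
    · exact h x y
  · rintro rfl
    exact ⟨inferInstance, fun x y h => h⟩

theorem set_nonempty (n : ℕ) : {k : ℕ | 1 ≤ k ∧ ∀ P : PartialOrder (Fin n),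
    @WidthLeTwo (Fin n) P → k ≠ @linExt (Fin n) P}.Nonempty := by
  refine ⟨Nat.card (Fin n → Fin n → Prop) + 1, by omega, ?_⟩
  intro P _ h
  have h1 : @linExt (Fin n) P ≤ Nat.card (Fin n → Fin n → Prop) := by
    unfold linExt
    rw [← Set.ncard_univ]
    exact Set.ncard_le_ncard (Set.subset_univ _) Set.finite_univ
  omega

/-- There is an absolute constant `c > 0` such that for all `n` the least positive integer `M2 n`
that is not the number of linear extensions of a poset of width at most two with `n` elements is at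
least `exp (c n)`. -/
theorem result : ∃ c : ℝ, 0 < c ∧ ∀ n : ℕ, Real.exp (c * n) ≤ (M2 n : ℝ) := by
  obtain ⟨C, hC⟩ := words_all
  have hlog2 : 0 < Real.log 2 := Real.log_pos (by norm_num)
  refine ⟨Real.log 2 / (C + 1), by positivity, ?_⟩
  intro n
  by_contra hlt
  push Not at hlt
  obtain ⟨hk1, hk⟩ := Nat.sInf_mem (set_nonempty n)
  change 1 ≤ M2 n at hk1
  change ∀ P : PartialOrder (Fin n), @WidthLeTwo (Fin n) P → M2 n ≠ @linExt (Fin n) P at hk
  obtain ⟨k, hkk⟩ : ∃ k, k = M2 n := ⟨_, rfl⟩
  rw [← hkk] at hlt hk1 hk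
  rcases Nat.lt_or_ge k 2 with h2 | h2
  · have h3 : k = 1 := by omega
    exact hk inferInstance (chain_width n) (by rw [chain_linExt, h3])
  · obtain ⟨w, hw1, hw2⟩ := hC k h2
    have hkpos : (0 : ℝ) < k := by
      have : 0 < k := by omega
      exact_mod_cast this
    have hle : (C + 1) * Nat.log 2 k ≤ n := by
      have h3 : (Nat.log 2 k : ℝ) * Real.log 2 ≤ Real.log k := by
        rw [← Real.log_pow]
        apply Real.log_le_log (by positivity)
        have := Nat.pow_log_le_self 2 (show k ≠ 0 by omega)
        exact_mod_cast this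
      have h4 : Real.log k < Real.log 2 / (C + 1) * n := by
        rw [← Real.log_exp (Real.log 2 / (C + 1) * n)]
        exact Real.log_lt_log hkpos hlt
      have h5 : (Nat.log 2 k : ℝ) * Real.log 2 < Real.log 2 / (C + 1) * n := lt_of_le_of_lt h3 h4
      have h6 : ((C : ℝ) + 1) * Nat.log 2 k < n := by
        have h7 : Real.log 2 / ((C : ℝ) + 1) * n = (n / (C + 1)) * Real.log 2 := by ring
        rw [h7] at h5
        have h8 := lt_of_mul_lt_mul_right h5 hlog2.le
        rw [lt_div_iff₀ (by positivity)] at h8
        linarith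
      have h9 : (((C + 1) * Nat.log 2 k : ℕ) : ℝ) < n := by
        push_cast
        exact h6
      exact le_of_lt (by exact_mod_cast h9)
    have hwn : wcost w + 2 ≤ n := by
      have h10 : C * Nat.log 2 k ≤ (C + 1) * Nat.log 2 k := Nat.mul_le_mul_right _ (by omega)
      omega
    obtain ⟨r, hr⟩ : ∃ r, n = wcost w + 2 + r := ⟨n - (wcost w + 2), by omega⟩
    obtain ⟨P, hP1, hP2⟩ := realize w r
    subst hr
    exact hk P hP1 (by rw [hP2, hw1])

end Pool.Agent.Results.MP_bac445_co.ExponentialLowerBound
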